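import Mathlib
import Pool.Agent.Hhelper87.NottD

/-!
# MP_685d56_al: sparse representatives of the elements of order 2

Every element of order 2 of the Nottingham group over `F_2` is conjugate to a sparse series.
The representative of odd depth `m` is `t * g^k` where `m * k + 1 = 2^(r+1)` and
`g = 1 + t^m g^(2^r)`.
-/

namespace Pool.Agent.Results.MP_685d56_al.OrderTwo

open PowerSeries Pool.Agent.Hhelper87.Nott

/-- Every element `τ` of order 2 in `N(F_2)` is conjugate in `N(F_2)` to a sparse series. -/
theorem result (τ : PowerSeries (ZMod 2)) (hτ : InNott τ) (hτ2 : comp τ τ = X) (hne : τ ≠ X) :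
    ∃ σ : PowerSeries (ZMod 2), InNott σ ∧ IsSparse σ ∧ Conjugate τ σ :=
  main hτ hτ2 hne

end Pool.Agent.Results.MP_685d56_al.OrderTwo
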